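import Pool.Agent.L7h28.VC.Stm

set_option autoImplicit false

namespace Pool.Agent.L7h18.VC

open Pool.Agent.L7h28.VC

theorem s_NL1 : S_NL1 := by
  intro p hp h3 g hg1 hg2 ε hε q hq hsq y z D h
  have h2 : (2 : ZMod p) ≠ 0 := by
    intro h0
    have h1 : ((2 : ℕ) : ZMod p) = 0 := by exact_mod_cast h0
    rw [ZMod.natCast_eq_zero_iff] at h1
    exact absurd (Nat.le_of_dvd (by norm_num) h1) (by omega)
  have hεε : ε * ε = 1 := by
    rcases hε with h | h <;> rw [h] <;> ring
  have hε0 : ε ≠ 0 := by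
    intro h0
    rw [h0, zero_mul] at hεε
    exact zero_ne_one hεε
  obtain ⟨v, hv⟩ : ∃ v, v = y - ε * z := ⟨_, rfl⟩
  obtain ⟨v', hv'⟩ : ∃ v', v' = y + ε * q * D - ε * (z + D) := ⟨_, rfl⟩
  rw [← hv, ← hv'] at h
  have hd : v' - v = ε * (q - 1) * D := by rw [hv, hv']; ring
  by_cases a : IsSquare v <;> by_cases a' : IsSquare v'
  · rw [hg1 v a, hg1 v' a'] at h
    have e : 2 * (ε * q) * D = 0 := by linear_combination h - hd
    rcases mul_eq_zero.1 e with h1 | h1
    · exact absurd h1 (mul_ne_zero h2 (mul_ne_zero hε0 hq))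
    · exact h1
  · rw [hg1 v a, hg2 v' a'] at h
    exfalso
    apply a'
    have e1 : 2 * (v' - ε * q * D) = 0 := by linear_combination -h + hd
    have e2 : v' = ε * q * D := by
      rcases mul_eq_zero.1 e1 with h1 | h1
      · exact absurd h1 h2
      · exact sub_eq_zero.1 h1
    have e3 : v' = q * v := by linear_combination (1 - q) * e2 + q * hd
    rw [e3]
    exact hsq.mul a
  · rw [hg2 v a, hg1 v' a'] at h
    exfalso
    apply a
    have e1 : 2 * (v' + ε * D) = 0 := by linear_combination h + hd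
    have e2 : v' = -(ε * D) := by
      rcases mul_eq_zero.1 e1 with h1 | h1
      · exact absurd h1 h2
      · exact eq_neg_of_add_eq_zero_left h1
    have e3 : v = q * v' := by linear_combination -hd - (q - 1) * e2
    rw [e3]
    exact hsq.mul a'
  · rw [hg2 v a, hg2 v' a'] at h
    have e : 2 * ε * D = 0 := by linear_combination h + hd
    rcases mul_eq_zero.1 e with h1 | h1
    · exact absurd h1 (mul_ne_zero h2 hε0)
    · exact h1

end Pool.Agent.L7h18.VC
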