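import Pool.Agent.L7h28.VC.Stm

set_option autoImplicit false

namespace Pool.Agent.L7h18.VC

open Pool.Agent.L7h28.VC Pool.Agent.H430R2.PermCubes Pool.Agent.Y347.VL Finset

lemma upd {p m : ℕ} (F : Fin m → ZMod p → ZMod p) (z : Fin m → ZMod p) (i : Fin m) (s : ZMod p) :
    ∑ l, F l (Function.update z i s l) = ∑ l, F l (z l) + (F i s - F i (z i)) := by
  have h : ∑ l, (F l (Function.update z i s l) - F l (z l)) = F i s - F i (z i) := by
    rw [sum_eq_single i]
    · rw [Function.update_self]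
    · intro l _ hl
      rw [Function.update_of_ne hl, sub_self]
    · intro h
      exact absurd (mem_univ i) h
  rw [sum_sub_distrib] at h
  linear_combination h

theorem s_NL3 : S_NL3 := by
  intro p hp m k h3 hm hk g hg1 hg2 C τ a u v hV hC huv hL hlin
  obtain ⟨τ', σ', a', hlin⟩ := hlin
  have h2 : (2 : ZMod p) ≠ 0 := by
    intro h0
    have h1 : ((2 : ℕ) : ZMod p) = 0 := by exact_mod_cast h0
    rw [ZMod.natCast_eq_zero_iff] at h1
    exact absurd (Nat.le_of_dvd (by norm_num) h1) (by omega)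
  obtain ⟨X, hX⟩ : ∃ X : (Fin m → ZMod p) → (Fin m → Fin p), X = fun z i => τ.symm (z i) := ⟨_, rfl⟩
  obtain ⟨ρ, hρ⟩ : ∃ ρ : Fin m → ZMod p → ZMod p, ρ = fun i t => τ' i (τ.symm t) := ⟨_, rfl⟩
  obtain ⟨j0, hj0⟩ : ∃ j0 : Fin k, j0 = ⟨0, hk⟩ := ⟨_, rfl⟩
  obtain ⟨b, hb⟩ : ∃ b, b = a' (Fin.castSucc j0) := ⟨_, rfl⟩
  obtain ⟨c, hc⟩ : ∃ c, c = a j0 := ⟨_, rfl⟩
  obtain ⟨σ, hσ⟩ : ∃ σ : ZMod p → ZMod p, σ = fun t => σ' (Fin.castSucc j0) (τ.symm t) := ⟨_, rfl⟩
  have hσi : Function.Injective σ := by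
    intro s t h
    rw [hσ] at h
    exact τ.symm.injective ((σ' (Fin.castSucc j0)).injective h)
  have H0 : ∀ z, τ (C (Fin.castSucc j0) (X z)) = ∑ i, c i * z i := by
    intro z
    rw [hC, hX, hc]
    simp only [Equiv.apply_symm_apply]
  have H1 : ∀ z : Fin m → ZMod p, σ (∑ i, c i * z i) = ∑ i, b i * ρ i (z i) := by
    intro z
    rw [← H0, hσ, hb, hρ]
    simp only [Equiv.symm_apply_apply]
    rw [hlin, hX]
  -- the coefficients are not zero
  have hc0 : ∀ i, c i ≠ 0 := by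
    intro i hci
    have h1 := ((hV.1 (Fin.castSucc j0)) i (X 0)).1
    have h5 : ∀ t : ZMod p, Function.update (X 0) i (τ.symm t) = X (Function.update 0 i t) := by
      intro t
      rw [hX]
      funext l
      by_cases hl : l = i
      · subst hl
        simp
      · simp [Function.update_of_ne hl]
    have h6 : C (Fin.castSucc j0) (X (Function.update 0 i 0)) = C (Fin.castSucc j0) (X (Function.update 0 i 1)) := by
      apply τ.injective
      rw [H0, H0, upd (fun l x => c l * x), upd (fun l x => c l * x), hci]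
      simp
    rw [← h5, ← h5] at h6
    have h7 := h1 h6
    exact zero_ne_one (τ.symm.injective h7)
  obtain ⟨i0, i1, h01⟩ : ∃ i0 i1 : Fin m, i0 ≠ i1 := ⟨⟨0, by omega⟩, ⟨1, by omega⟩, by simp⟩
  have hone : ∀ i s, σ (c i * s) = σ 0 + (b i * ρ i s - b i * ρ i 0) := by
    intro i s
    have e1 := H1 (Function.update 0 i s)
    have e0 := H1 0
    rw [upd (fun l x => c l * x), upd (fun l x => b l * ρ l x)] at e1
    simp only [Pi.zero_apply, mul_zero, sum_const_zero, zero_add, sub_zero] at e1 e0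
    rw [e1, e0]
  have htwo : ∀ s t, σ (c i0 * s + c i1 * t) =
      σ 0 + (b i0 * ρ i0 s - b i0 * ρ i0 0) + (b i1 * ρ i1 t - b i1 * ρ i1 0) := by
    intro s t
    have e1 := H1 (Function.update (Function.update 0 i0 s) i1 t)
    have e0 := H1 0
    rw [upd (fun l x => c l * x), upd (fun l x => b l * ρ l x), upd (fun l x => c l * x),
      upd (fun l x => b l * ρ l x), Function.update_of_ne h01.symm] at e1
    simp only [Pi.zero_apply, mul_zero, sum_const_zero, zero_add, sub_zero] at e1 e0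
    rw [e1, e0]
  have hadd : ∀ r t, σ (r + t) - σ 0 = (σ r - σ 0) + (σ t - σ 0) := by
    intro r t
    have e1 := htwo (r / c i0) (t / c i1)
    have e2 := hone i0 (r / c i0)
    have e3 := hone i1 (t / c i1)
    rw [mul_div_cancel₀ _ (hc0 i0)] at e1 e2
    rw [mul_div_cancel₀ _ (hc0 i1)] at e1 e3
    rw [e1, e2, e3]
    ring
  obtain ⟨L, hLd⟩ : ∃ L : ZMod p →+ ZMod p, ∀ t, L t = σ t - σ 0 :=
    ⟨AddMonoidHom.mk' (fun t => σ t - σ 0) hadd, fun t => rfl⟩
  have hLl : ∀ t, L t = t * L 1 := by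
    intro t
    have := ZMod.map_smul L t (1 : ZMod p)
    rwa [smul_eq_mul, mul_one, smul_eq_mul] at this
  have hL1 : L 1 ≠ 0 := by
    intro h
    rw [hLd, sub_eq_zero] at h
    exact one_ne_zero (hσi h)
  have hφ : ∀ i s, b i * ρ i s - b i * ρ i 0 = c i * s * L 1 := by
    intro i s
    rw [← hLl, hLd, hone]
    ring
  have hb0 : ∀ i, b i ≠ 0 := by
    intro i h
    have h1 := hφ i 1
    rw [h, zero_mul, zero_mul, sub_zero, mul_one] at h1
    exact mul_ne_zero (hc0 i) hL1 h1.symm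
  have hρa : ∀ i s, ρ i s = ρ i 0 + c i * L 1 / b i * s := by
    intro i s
    have h1 := hφ i s
    have h2 := hb0 i
    field_simp
    linear_combination h1
  -- the last cube
  obtain ⟨d, hd⟩ : ∃ d, d = a' (Fin.last k) := ⟨_, rfl⟩
  obtain ⟨w, hw⟩ : ∃ w : Fin m → ZMod p, w = fun i => d i * (c i * L 1 / b i) := ⟨_, rfl⟩
  have G1 : ∀ z, σ' (Fin.last k) (C (Fin.last k) (X z)) = ∑ i, d i * ρ i 0 + ∑ i, w i * z i := by
    intro z
    rw [hlin, ← hd, ← sum_add_distrib]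
    apply sum_congr rfl
    intro i _
    have e1 : τ' i (X z i) = ρ i (z i) := by rw [hρ, hX]
    rw [e1, hρa i (z i), hw]
    ring
  have G2 : ∀ z, τ (C (Fin.last k) (X z)) = (∑ i, u i * z i) + g (∑ i, v i * z i) := by
    intro z
    rw [hL, hX]
    simp only [Equiv.apply_symm_apply]
  have G3 : ∀ z z' : Fin m → ZMod p, (∑ i, u i * z i) + g (∑ i, v i * z i) = (∑ i, u i * z' i) + g (∑ i, v i * z' i) →
      ∑ i, w i * z i = ∑ i, w i * z' i := by
    intro z z' h
    rw [← G2, ← G2] at h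
    have e1 := G1 z
    rw [τ.injective h, G1 z'] at e1
    exact (add_left_cancel e1).symm
  have G4 : ∀ z z' : Fin m → ZMod p, ∑ i, w i * z i = ∑ i, w i * z' i →
      (∑ i, u i * z i) + g (∑ i, v i * z i) = (∑ i, u i * z' i) + g (∑ i, v i * z' i) := by
    intro z z' h
    rw [← G2, ← G2]
    congr 1
    apply (σ' (Fin.last k)).injective
    rw [G1, G1, h]
  have g0 : g 0 = 0 := hg1 0 (IsSquare.zero)
  have g1 : g 1 = 1 := hg1 1 (IsSquare.one)
  obtain ⟨n, hn⟩ : ∃ n : ZMod p, ¬ IsSquare n := by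
    apply FiniteField.exists_nonsquare
    rw [ZMod.ringChar_zmod_n]
    omega
  have hn0 : n ≠ 0 := by
    intro h
    rw [h] at hn
    exact hn IsSquare.zero
  obtain ⟨y1, hu1, hv1⟩ := huv (-1) 1
  obtain ⟨y2, hu2, hv2⟩ := huv n n
  have z0 : ∀ f : Fin m → ZMod p, ∑ i, f i * (0 : Fin m → ZMod p) i = 0 := by
    intro f
    simp
  have W1 : ∑ i, w i * y1 i = 0 := by
    have := G3 y1 0 (by rw [hu1, hv1, z0, z0, g0, g1]; ring)
    rw [this, z0]
  have W2 : ∑ i, w i * y2 i = 0 := by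
    have := G3 y2 0 (by rw [hu2, hv2, z0, z0, g0, hg2 n hn]; ring)
    rw [this, z0]
  have lin : ∀ f : Fin m → ZMod p, ∑ i, f i * (n⁻¹ * y2 i - y1 i) = n⁻¹ * ∑ i, f i * y2 i - ∑ i, f i * y1 i := by
    intro f
    rw [mul_sum, ← sum_sub_distrib]
    apply sum_congr rfl
    intro i _
    ring
  have h9 := G4 (fun i => n⁻¹ * y2 i - y1 i) 0 (by
    rw [z0]
    rw [lin, W1, W2]
    ring)
  simp only [z0] at h9
  rw [lin, lin, hu1, hu2, hv1, hv2, inv_mul_cancel₀ hn0, sub_self, g0] at h9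
  apply h2
  linear_combination h9

end Pool.Agent.L7h18.VC
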